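import Pool.Agent.Helper43.GD.St
import Pool.Agent.Helper41.DZ.CompSeries

/-! Assembly of project GD. -/

set_option autoImplicit false
set_option linter.unusedSimpArgs false

namespace Pool.Agent.Helper43.GD

open Pool.Agent.Helper41.DZ

section free

/-- generators -/
def ga : FreeGroup (Fin 3) := FreeGroup.of 0
def gw : FreeGroup (Fin 3) := FreeGroup.of 1
def gt : FreeGroup (Fin 3) := FreeGroup.of 2

/-- the three relators -/
def r1 (M : ℕ) : FreeGroup (Fin 3) := (ga * gw * ga) * (gw * cj ga gt M * gw⁻¹)⁻¹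

def r2 : FreeGroup (Fin 3) := (gw⁻¹ * gt * gw) * gt⁻¹⁻¹

def r3 : FreeGroup (Fin 3) := ga * (cj ga gt 1 * cj ga gt 2)⁻¹

theorem map_cj {G H : Type} [Group G] [Group H] (f : G →* H) (a t : G) (i : ℤ) :
    f (cj a t i) = cj (f a) (f t) i := by
  unfold cj
  rw [map_mul, map_mul, map_zpow, map_zpow]

/-- exponent sums of `t` and `w` -/
def sumT : FreeGroup (Fin 3) →* Multiplicative ℤ :=
  FreeGroup.lift ![1, 1, Multiplicative.ofAdd 1]

def sumW : FreeGroup (Fin 3) →* Multiplicative ℤ :=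
  FreeGroup.lift ![1, Multiplicative.ofAdd 1, 1]

theorem sumT_a : sumT ga = 1 := by simp [sumT, ga]
theorem sumT_w : sumT gw = 1 := by simp [sumT, gw]
theorem sumT_t : sumT gt = Multiplicative.ofAdd 1 := by simp [sumT, gt]
theorem sumW_a : sumW ga = 1 := by simp [sumW, ga]
theorem sumW_w : sumW gw = Multiplicative.ofAdd 1 := by simp [sumW, gw]
theorem sumW_t : sumW gt = 1 := by simp [sumW, gt]

theorem sumT_r1 (M : ℕ) : sumT (r1 M) = 1 := by
  simp only [r1, map_mul, map_inv, map_cj, sumT_a, sumT_w, sumT_t, cj]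
  simp

theorem sumT_r2 : sumT r2 = Multiplicative.ofAdd 2 := by
  simp only [r2, map_mul, map_inv, sumT_w, sumT_t]
  simp only [inv_one, one_mul, mul_one, inv_inv]
  rw [← ofAdd_add]; rfl

theorem sumT_r3 : sumT r3 = 1 := by
  simp only [r3, map_mul, map_inv, map_cj, sumT_a, sumT_w, sumT_t, cj]
  simp

theorem sumW_r1 (M : ℕ) : sumW (r1 M) = Multiplicative.ofAdd 1 := by
  simp only [r1, map_mul, map_inv, map_cj, sumW_a, sumW_w, sumW_t, cj]
  simp

theorem sumW_r3 : sumW r3 = 1 := by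
  simp only [r3, map_mul, map_inv, map_cj, sumW_a, sumW_w, sumW_t, cj]
  simp

/-- the set of relators -/
noncomputable def rels (M : ℕ) : Finset (FreeGroup (Fin 3)) := by
  classical exact {r1 M, r2, r3}

theorem rels_card (M : ℕ) : (rels M).card = 3 := by
  classical
  have h12 : r1 M ≠ r2 := by
    intro h
    have := congrArg sumT h
    rw [sumT_r1, sumT_r2] at this
    have h' : (0 : ℤ) = 2 := Multiplicative.ofAdd.injective this
    omega
  have h13 : r1 M ≠ r3 := by
    intro h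
    have := congrArg sumW h
    rw [sumW_r1, sumW_r3] at this
    have h' : (1 : ℤ) = 0 := Multiplicative.ofAdd.injective this
    omega
  have h23 : r2 ≠ r3 := by
    intro h
    have := congrArg sumT h
    rw [sumT_r2, sumT_r3] at this
    have h' : (2 : ℤ) = 0 := Multiplicative.ofAdd.injective this
    omega
  rw [rels]
  convert Finset.card_eq_three.2 ⟨r1 M, r2, r3, h12, h13, h23, rfl⟩

theorem mem_rels {M : ℕ} (w : FreeGroup (Fin 3)) :
    w ∈ (rels M : Set (FreeGroup (Fin 3))) ↔ w = r1 M ∨ w = r2 ∨ w = r3 := by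
  classical
  simp [rels]

theorem rel_iff {G : Type} [Group G] (f : FreeGroup (Fin 3) →* G) (M : ℕ) :
    Rel M (f ga) (f gw) (f gt) ↔ f (r1 M) = 1 ∧ f r2 = 1 ∧ f r3 = 1 := by
  unfold Rel
  have e1 : f (r1 M) = 1 ↔
      f ga * f gw * f ga = f gw * cj (f ga) (f gt) M * (f gw)⁻¹ := by
    rw [r1, map_mul, map_inv, mul_inv_eq_one]
    simp only [map_mul, map_inv, map_cj]
  have e2 : f r2 = 1 ↔ (f gw)⁻¹ * f gt * f gw = (f gt)⁻¹ := by
    rw [r2, map_mul, map_inv, mul_inv_eq_one]
    simp only [map_mul, map_inv]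
  have e3 : f r3 = 1 ↔ f ga = cj (f ga) (f gt) 1 * cj (f ga) (f gt) 2 := by
    rw [r3, map_mul, map_inv, mul_inv_eq_one]
    simp only [map_mul, map_cj]
  rw [e1, e2, e3]

end free

theorem main (hPB : StPB) (hTG : StTG) (p : ℕ) [hF : Fact p.Prime]
    (h20 : p % 20 = 3 ∨ p % 20 = 7) (h3 : p % 3 ≠ 2) :
    ∃ (G : Type) (_ : Group G), Finite G ∧ DeficiencyZero G ∧
      IsCompositionFactor (Matrix.ProjectiveSpecialLinearGroup (Fin 2) (GaloisField p 2)) G := by
  let R := rels (p + 1)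
  let G := PresentedGroup (R : Set (FreeGroup (Fin 3)))
  let π : FreeGroup (Fin 3) →* G := PresentedGroup.mk (R : Set (FreeGroup (Fin 3)))
  have hrel : Rel (p + 1) (π ga) (π gw) (π gt) := by
    rw [rel_iff]
    exact ⟨PresentedGroup.one_of_mem ((mem_rels _).2 (Or.inl rfl)),
      PresentedGroup.one_of_mem ((mem_rels _).2 (Or.inr (Or.inl rfl))),
      PresentedGroup.one_of_mem ((mem_rels _).2 (Or.inr (Or.inr rfl)))⟩
  have hgen : Subgroup.closure {π ga, π gw, π gt} = (⊤ : Subgroup G) := by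
    rw [← PresentedGroup.closure_range_of (R : Set (FreeGroup (Fin 3)))]
    congr 1
    ext g
    constructor
    · rintro (rfl | rfl | rfl)
      · exact ⟨0, rfl⟩
      · exact ⟨1, rfl⟩
      · exact ⟨2, rfl⟩
    · rintro ⟨b, rfl⟩
      fin_cases b
      · exact Or.inl rfl
      · exact Or.inr (Or.inl rfl)
      · exact Or.inr (Or.inr rfl)
  have hfin : Finite G :=
    hPB G (p + 1) (π ga) (π gw) (π gt) (by omega) (by omega) (by omega) hrel hgen
  have hdef : DeficiencyZero G :=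
    ⟨Fin 3, inferInstance, R, by rw [rels_card]; rfl, ⟨MulEquiv.refl _⟩⟩
  obtain ⟨T, _, a, w, t, hrelT, hTr⟩ := hTG p hF h20
  let ρ : FreeGroup (Fin 3) →* T := FreeGroup.lift ![a, w, t]
  have ρa : ρ ga = a := by simp [ρ, ga]
  have ρw : ρ gw = w := by simp [ρ, gw]
  have ρt : ρ gt = t := by simp [ρ, gt]
  have hρ := (rel_iff ρ (p + 1)).1 (by rw [ρa, ρw, ρt]; exact hrelT)
  have hrels : ∀ w' ∈ (R : Set (FreeGroup (Fin 3))), FreeGroup.lift ![a, w, t] w' = 1 := by
    intro w' hw'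
    rcases (mem_rels w').1 hw' with rfl | rfl | rfl
    · exact hρ.1
    · exact hρ.2.1
    · exact hρ.2.2
  let φ : G →* T := PresentedGroup.toGroup hrels
  have hφ : ∀ i : Fin 3, φ (PresentedGroup.of i) = ![a, w, t] i := fun i =>
    PresentedGroup.toGroup.of hrels (x := i)
  obtain ⟨L, hL, f', hf'⟩ := hTr G φ (π ga) (π gw) (π gt) (hφ 0) (hφ 1) (hφ 2) hgen
  have hcard : 4 ≤ Nat.card (GaloisField p 2) := by
    rw [GaloisField.card p 2 (by omega)]
    have h2 := hF.out.two_le
    nlinarith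
  exact ⟨G, inferInstance, hfin, hdef,
    factor_of_section _ (Matrix.ProjectiveSpecialLinearGroup.rank_two_simple hcard) _ G rfl L hL f'
      hf'⟩

end Pool.Agent.Helper43.GD
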