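import Pool.Agent.Helper98.GD.M_AU
import Pool.Agent.Helper28.GD.M_B2
import Pool.Agent.Helper76.GD.M_B3
import Pool.Agent.Helper79.GD.M_B4
import Pool.Agent.Helper37.GD.M_B5
import Pool.Agent.Helper41.GD.M_CEL
import Pool.Agent.Helper80.GD.M_CMB
import Pool.Agent.Helper12.GD.M_CT
import Pool.Agent.Helper66.GD.M_EX
import Pool.Agent.Helper24.GD.M_GNS
import Pool.Agent.Helper85.GD.M_HAT
import Pool.Agent.Helper57.GD.M_IN
import Pool.Agent.Helper1.GD.M_KA
import Pool.Agent.Helper39.GD.M_KB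
import Pool.Agent.Helper78.GD.M_KC
import Pool.Agent.Helper78.GD.M_P1
import Pool.Agent.Helper81.GD.M_P2
import Pool.Agent.Helper40.GD.M_P3
import Pool.Agent.Helper93.GD.M_PA
import Pool.Agent.Helper18.GD.M_PB
import Pool.Agent.Helper30.GD.M_PF
import Pool.Agent.Helper8.GD.M_RI
import Pool.Agent.Helper26.GD.M_RL
import Pool.Agent.Helper72.GD.M_RR
import Pool.Agent.Helper64.GD.M_SA
import Pool.Agent.Helper29.GD.M_SB
import Pool.Agent.Helper73.GD.M_SC
import Pool.Agent.Helper84.GD.M_SD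
import Pool.Agent.Helper67.GD.M_SE
import Pool.Agent.Helper36.GD.M_ST
import Pool.Agent.Helper1.GD.M_TF
import Pool.Agent.Helper11.GD.M_TG
import Pool.Agent.Helper69.GD.M_TWO
import Pool.Agent.Helper89.GD.M_TX
import Pool.Agent.Helper48.GD.M_UN
import Pool.Agent.Helper21.GD.M_WM
import Pool.Agent.Helper43.GD.Asm

/-! Project GD: all modules together. -/

set_option autoImplicit false

namespace Pool.Agent.Helper43.GD

theorem pRR : StRR := Pool.Agent.Helper72.GD.hRR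
theorem pST : StST := Pool.Agent.Helper36.GD.hST
theorem pP1 : StP1 := Pool.Agent.Helper78.GD.hP1 pRR pST
theorem pP2 : StP2 := Pool.Agent.Helper81.GD.hP2 pST
theorem pP3 : StP3 := Pool.Agent.Helper40.GD.hP3
theorem pCMB : StCMB := Pool.Agent.Helper80.GD.hCMB pP3
theorem pGNS : StGNS := Pool.Agent.Helper24.GD.hGNS
theorem pTX : StTX := Pool.Agent.Helper89.GD.hTX pP2 pCMB pGNS
theorem pTWO : StTWO := Pool.Agent.Helper69.GD.hTWO pP1 pP2 pCMB pGNS
theorem pL13 : StL13 := Pool.Agent.Helper69.GD.hL13 pP1 pP2 pCMB pTWO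
theorem pSA : StSA := Pool.Agent.Helper64.GD.hSA pRR
theorem pSB : StSB := Pool.Agent.Helper29.GD.hSB pP1 pTX
theorem pSC : StSC := Pool.Agent.Helper73.GD.hSC pSA pSB pGNS
theorem pSD : StSD := Pool.Agent.Helper84.GD.hSD
theorem pSE : StSE := Pool.Agent.Helper67.GD.hSE pSC pSD
theorem pB2 : StB2 := Pool.Agent.Helper28.GD.hB2 pL13 pGNS
theorem pB3 : StB3 := Pool.Agent.Helper76.GD.hB3 pB2 pGNS
theorem pB4 : StB4 := Pool.Agent.Helper79.GD.B4.hB4 pB2 pGNS
theorem pB5 : StB5 := Pool.Agent.Helper37.GD.hB5 pB3 pB4 pGNS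
theorem pRL : StRL := Pool.Agent.Helper26.GD.hRL pRR
theorem pCEL : StCEL := Pool.Agent.Helper41.GD.hCEL pRL
theorem pHAT : StHAT := Pool.Agent.Helper85.GD.hHAT
theorem pUN : StUN := Pool.Agent.Helper48.GD.hUN
theorem pPF : StPF := Pool.Agent.Helper30.GD.hPF
theorem pCT : StCT := Pool.Agent.Helper12.GD.hCT
theorem pWM : StWM := Pool.Agent.Helper21.GD.hWM
theorem pAU : StAU := Pool.Agent.Helper43.GD.hAU pUN pPF pCT pWM
theorem pIN : StIN := Pool.Agent.Helper57.GD.hIN pHAT pPF pAU pSE pB5 pCEL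
theorem pKA : StKA := Pool.Agent.Helper1.GD.hKA
theorem pKB : StKB := Pool.Agent.Helper39.GD.hKB pKA
theorem pKC : StKC := Pool.Agent.Helper78.GD.hKC pKB
theorem pRI : StRI := Pool.Agent.Helper8.GD.hRI
theorem pEX : StEX := Pool.Agent.Helper66.GD.hEX
theorem pPA : StPA := Pool.Agent.Helper93.GD.hPA pIN pRI pEX pKB
theorem pPB : StPB := Pool.Agent.Helper18.GD.hPB pPA pKB pKC
theorem pTF : StTF := Pool.Agent.Helper1.GD.hTF
theorem pTG : StTG := Pool.Agent.Helper11.GD.hTG pTF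

end Pool.Agent.Helper43.GD
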