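import Pool.Agent.Helper41.DZ.Defs

/-! Project GD (MP_b3ce06_al): `PSL(2,p²)` in finite groups of deficiency zero, golden ratio family.
Definitions and basic lemmas. -/

set_option autoImplicit false

namespace Pool.Agent.Helper43.GD

/-- Two additive families in a group. -/
structure Sys (L A : Type) [CommRing L] [Group A] where
  E : L → A
  F : L → A
  Eadd : ∀ a b, E (a + b) = E a * E b
  Fadd : ∀ a b, F (a + b) = F a * F b

namespace Sys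

variable {L A : Type} [CommRing L] [Group A] (s : Sys L A)

/-- the subgroup generated by all `E a`, `F b` -/
def gp : Subgroup A := Subgroup.closure (Set.range s.E ∪ Set.range s.F)

/-- `ω(u) = E(u) F(-1/u) E(u)` -/
def om (u : Lˣ) : A := s.E (u : L) * s.F (-((u⁻¹ : Lˣ) : L)) * s.E (u : L)

/-- `u` is a Weyl unit -/
def Weyl (u : Lˣ) : Prop :=
  (∀ a, s.om u * s.E a * (s.om u)⁻¹ = s.F (-(((u⁻¹ : Lˣ) : L) * ((u⁻¹ : Lˣ) : L) * a))) ∧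
  (∀ b, s.om u * s.F b * (s.om u)⁻¹ = s.E (-((u : L) * (u : L) * b)))

/-- `h` is a torus element with parameter `u` -/
def IsTor (u : Lˣ) (h : A) : Prop :=
  (∀ a, h * s.E a * h⁻¹ = s.E ((u : L) * a)) ∧
  (∀ b, h * s.F b * h⁻¹ = s.F (((u⁻¹ : Lˣ) : L) * b))

theorem E_zero : s.E 0 = 1 := by
  have h0 := s.Eadd 0 0
  rw [add_zero] at h0
  exact mul_eq_left.1 h0.symm

theorem F_zero : s.F 0 = 1 := by
  have h0 := s.Fadd 0 0
  rw [add_zero] at h0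
  exact mul_eq_left.1 h0.symm

theorem E_neg (a : L) : s.E (-a) = (s.E a)⁻¹ := by
  apply eq_inv_of_mul_eq_one_left
  rw [← s.Eadd, neg_add_cancel, s.E_zero]

theorem F_neg (a : L) : s.F (-a) = (s.F a)⁻¹ := by
  apply eq_inv_of_mul_eq_one_left
  rw [← s.Fadd, neg_add_cancel, s.F_zero]

theorem E_comm (a b : L) : s.E a * s.E b = s.E b * s.E a := by
  rw [← s.Eadd, ← s.Eadd, add_comm]

theorem F_comm (a b : L) : s.F a * s.F b = s.F b * s.F a := by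
  rw [← s.Fadd, ← s.Fadd, add_comm]

theorem E_mem (a : L) : s.E a ∈ s.gp := Subgroup.subset_closure (Or.inl ⟨a, rfl⟩)
theorem F_mem (a : L) : s.F a ∈ s.gp := Subgroup.subset_closure (Or.inr ⟨a, rfl⟩)

theorem om_mem (u : Lˣ) : s.om u ∈ s.gp :=
  s.gp.mul_mem (s.gp.mul_mem (s.E_mem _) (s.F_mem _)) (s.E_mem _)

/-- `ω(-u) = ω(u)⁻¹` -/
theorem om_neg (u : Lˣ) : s.om (-u) = (s.om u)⁻¹ := by
  unfold om
  have e : ((-u)⁻¹ : Lˣ) = -(u⁻¹) := by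
    rw [inv_neg]
  rw [e, Units.val_neg, Units.val_neg, s.E_neg, s.F_neg, s.F_neg]
  group

/-- `h ω(u) h⁻¹ = ω(τu)` for a torus element `h` with parameter `τ` -/
theorem om_tor {τ : Lˣ} {h : A} (hh : s.IsTor τ h) (u : Lˣ) :
    h * s.om u * h⁻¹ = s.om (τ * u) := by
  unfold om
  have e : (((τ * u)⁻¹ : Lˣ) : L) = ((τ⁻¹ : Lˣ) : L) * ((u⁻¹ : Lˣ) : L) := by
    rw [mul_inv, Units.val_mul]
  rw [e, Units.val_mul]
  calc h * (s.E (u : L) * s.F (-((u⁻¹ : Lˣ) : L)) * s.E (u : L)) * h⁻¹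
      = (h * s.E (u : L) * h⁻¹) * (h * s.F (-((u⁻¹ : Lˣ) : L)) * h⁻¹) * (h * s.E (u : L) * h⁻¹) := by
        group
    _ = _ := by rw [hh.1, hh.2, mul_neg]

theorem IsTor.mul {u v : Lˣ} {g h : A} (hg : s.IsTor u g) (hh : s.IsTor v h) :
    s.IsTor (u * v) (g * h) := by
  constructor
  · intro a
    calc g * h * s.E a * (g * h)⁻¹ = g * (h * s.E a * h⁻¹) * g⁻¹ := by group
      _ = _ := by rw [hh.1, hg.1, Units.val_mul, mul_assoc]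
  · intro b
    calc g * h * s.F b * (g * h)⁻¹ = g * (h * s.F b * h⁻¹) * g⁻¹ := by group
      _ = _ := by rw [hh.2, hg.2, mul_inv, Units.val_mul, mul_assoc]

theorem IsTor.inv {u : Lˣ} {g : A} (hg : s.IsTor u g) : s.IsTor u⁻¹ g⁻¹ := by
  constructor
  · intro a
    have := hg.1 (((u⁻¹ : Lˣ) : L) * a)
    rw [Units.mul_inv_cancel_left] at this
    rw [← this]; group
  · intro b
    have := hg.2 (((u⁻¹⁻¹ : Lˣ) : L) * b)
    rw [Units.mul_inv_cancel_left] at this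
    rw [← this]; group

theorem isTor_one : s.IsTor 1 1 := ⟨fun a => by simp, fun a => by simp⟩

/-- `ω(v) ω(u)⁻¹` is a torus element with parameter `v²/u²` -/
theorem tor_of_weyl {u v : Lˣ} (hu : s.Weyl u) (hv : s.Weyl v) :
    s.IsTor (v * v * u⁻¹ * u⁻¹) (s.om v * (s.om u)⁻¹) := by
  have h1 : ∀ a, (s.om u)⁻¹ * s.E a * s.om u = s.F (-(((u⁻¹ : Lˣ) : L) * ((u⁻¹ : Lˣ) : L) * a)) := by
    intro a
    have e : a = -((u : L) * (u : L) * (-(((u⁻¹ : Lˣ) : L) * ((u⁻¹ : Lˣ) : L) * a))) := by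
      have := u.mul_inv
      linear_combination (-a * (((u : L) * ((u⁻¹ : Lˣ) : L)) + 1)) * this
    conv_lhs => rw [e]
    rw [← hu.2]; group
  have h2 : ∀ b, (s.om u)⁻¹ * s.F b * s.om u = s.E (-((u : L) * (u : L) * b)) := by
    intro b
    have e : b = -(((u⁻¹ : Lˣ) : L) * ((u⁻¹ : Lˣ) : L) * (-((u : L) * (u : L) * b))) := by
      have := u.mul_inv
      linear_combination (-b * (((u : L) * ((u⁻¹ : Lˣ) : L)) + 1)) * this
    conv_lhs => rw [e]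
    rw [← hu.1]; group
  constructor
  · intro a
    calc s.om v * (s.om u)⁻¹ * s.E a * (s.om v * (s.om u)⁻¹)⁻¹
        = s.om v * ((s.om u)⁻¹ * s.E a * s.om u) * (s.om v)⁻¹ := by group
      _ = _ := by
        rw [h1, hv.2]; congr 1
        push_cast
        ring
  · intro b
    calc s.om v * (s.om u)⁻¹ * s.F b * (s.om v * (s.om u)⁻¹)⁻¹
        = s.om v * ((s.om u)⁻¹ * s.F b * s.om u) * (s.om v)⁻¹ := by group
      _ = _ := by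
        rw [h2, hv.1]; congr 1
        have e : ((v * v * u⁻¹ * u⁻¹)⁻¹ : Lˣ) = v⁻¹ * v⁻¹ * u * u := by
          rw [mul_inv, mul_inv, mul_inv, inv_inv]
        rw [e]
        push_cast
        ring

/-- Weyl units are stable under torus elements. -/
theorem weyl_tor {τ : Lˣ} {h : A} (hh : s.IsTor τ h) {u : Lˣ} (hu : s.Weyl u) :
    s.Weyl (τ * u) := by
  have h' := hh.inv
  constructor
  · intro a
    rw [← s.om_tor hh]
    calc h * s.om u * h⁻¹ * s.E a * (h * s.om u * h⁻¹)⁻¹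
        = h * (s.om u * (h⁻¹ * s.E a * h⁻¹⁻¹) * (s.om u)⁻¹) * h⁻¹ := by group
      _ = _ := by
        rw [h'.1, hu.1, hh.2]; congr 1
        rw [mul_inv]; push_cast; ring
  · intro b
    rw [← s.om_tor hh]
    calc h * s.om u * h⁻¹ * s.F b * (h * s.om u * h⁻¹)⁻¹
        = h * (s.om u * (h⁻¹ * s.F b * h⁻¹⁻¹) * (s.om u)⁻¹) * h⁻¹ := by group
      _ = _ := by
        rw [h'.2, hu.2, hh.1]; congr 1
        rw [inv_inv]; push_cast; ring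

end Sys

/-- `L` is a finite ring generated by the golden ratio unit `x`, `x² + x = 1`, with `x^M = -1`,
`4 ∣ M`, `3 ∤ M`; `2` is a unit. -/
structure Rg (L : Type) [CommRing L] (M : ℕ) (x : Lˣ) : Prop where
  fin : Finite L
  gold : (x : L) ^ 2 + (x : L) = 1
  xM : (x : L) ^ M = -1
  four : 4 ∣ M
  three : ¬ 3 ∣ M
  two : IsUnit (2 : L)
  span : ∀ a : L, ∃ m n : ℤ, a = (m : L) + (n : L) * (x : L)

/-- an element `s` with `ℤ[s] = L` -/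
def Gn {L : Type} [CommRing L] (s : L) : Prop :=
  ∀ N : AddSubgroup L, (1 : L) ∈ N → (∀ y ∈ N, s * y ∈ N) → ∀ y, y ∈ N

/-- Finiteness of all groups with a system over `L` such that `1` and `x` are Weyl units. -/
def FinP (L : Type) [CommRing L] (x : Lˣ) : Prop :=
  ∀ (A : Type) [Group A] (s : Sys L A), s.Weyl 1 → s.Weyl x → Finite s.gp

/-- A frame: a system in which the Weyl units form a subgroup `U` containing `-1`, each with a torus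
element `h u`, and in which only `1` commutes with the whole system. -/
structure Fr (L A : Type) [CommRing L] [Group A] extends Sys L A where
  U : Subgroup Lˣ
  h : Lˣ → A
  weyl : ∀ u, u ∈ U ↔ toSys.Weyl u
  tor : ∀ u ∈ U, toSys.IsTor u (h u)
  cent : ∀ g : A, (∀ a, g * E a = E a * g) → (∀ b, g * F b = F b * g) → g = 1
  neg : (-1 : Lˣ) ∈ U

namespace Fr

variable {L A : Type} [CommRing L] [Group A] (Q : Fr L A)

/-- the Weyl element `w = ω(1)` -/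
def w : A := Q.om 1

/-- `a ∈ L` is a unit which belongs to `U` -/
def In (a : L) : Prop := ∃ u ∈ Q.U, (u : L) = a

/-- `Ŝ(u)` -/
def S (u σ : Lˣ) : Prop := σ ∈ Q.U ∧ Q.om u * Q.h σ * (Q.om u)⁻¹ = (Q.h σ)⁻¹

theorem ext_of {g k : A} (h1 : ∀ a, g * Q.E a * g⁻¹ = k * Q.E a * k⁻¹)
    (h2 : ∀ b, g * Q.F b * g⁻¹ = k * Q.F b * k⁻¹) : g = k := by
  have : k⁻¹ * g = 1 := by
    apply Q.cent
    · intro a
      have e := h1 a
      calc k⁻¹ * g * Q.E a = k⁻¹ * (g * Q.E a * g⁻¹) * g := by group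
        _ = k⁻¹ * (k * Q.E a * k⁻¹) * g := by rw [e]
        _ = _ := by group
    · intro a
      have e := h2 a
      calc k⁻¹ * g * Q.F a = k⁻¹ * (g * Q.F a * g⁻¹) * g := by group
        _ = k⁻¹ * (k * Q.F a * k⁻¹) * g := by rw [e]
        _ = _ := by group
  exact (inv_mul_eq_one.1 this).symm

theorem tor_unique {u : Lˣ} {g k : A} (hg : Q.IsTor u g) (hk : Q.IsTor u k) : g = k :=
  Q.ext_of (fun a => by rw [hg.1, hk.1]) (fun b => by rw [hg.2, hk.2])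

theorem h_mul {u v : Lˣ} (hu : u ∈ Q.U) (hv : v ∈ Q.U) : Q.h (u * v) = Q.h u * Q.h v :=
  Q.tor_unique (Q.tor _ (Q.U.mul_mem hu hv)) ((Q.tor u hu).mul _ (Q.tor v hv))

theorem h_one : Q.h 1 = 1 :=
  Q.tor_unique (Q.tor _ Q.U.one_mem) (Q.isTor_one)

theorem h_inv {u : Lˣ} (hu : u ∈ Q.U) : Q.h u⁻¹ = (Q.h u)⁻¹ :=
  Q.tor_unique (Q.tor _ (Q.U.inv_mem hu)) ((Q.tor u hu).inv _)

theorem h_comm {u v : Lˣ} (hu : u ∈ Q.U) (hv : v ∈ Q.U) : Q.h u * Q.h v = Q.h v * Q.h u := by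
  rw [← Q.h_mul hu hv, ← Q.h_mul hv hu, mul_comm]

theorem weyl_one : Q.Weyl 1 := (Q.weyl 1).1 Q.U.one_mem

theorem w_E (a : L) : Q.w * Q.E a * Q.w⁻¹ = Q.F (-a) := by
  have := Q.weyl_one.1 a
  simpa [w] using this

theorem w_F (b : L) : Q.w * Q.F b * Q.w⁻¹ = Q.E (-b) := by
  have := Q.weyl_one.2 b
  simpa [w] using this

theorem ww : Q.w * Q.w = 1 := by
  apply Q.cent
  · intro a
    have : Q.w * Q.w * Q.E a * (Q.w * Q.w)⁻¹ = Q.E a := by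
      calc Q.w * Q.w * Q.E a * (Q.w * Q.w)⁻¹ = Q.w * (Q.w * Q.E a * Q.w⁻¹) * Q.w⁻¹ := by group
        _ = _ := by rw [Q.w_E, Q.w_F, neg_neg]
    exact mul_inv_eq_iff_eq_mul.1 this
  · intro a
    have : Q.w * Q.w * Q.F a * (Q.w * Q.w)⁻¹ = Q.F a := by
      calc Q.w * Q.w * Q.F a * (Q.w * Q.w)⁻¹ = Q.w * (Q.w * Q.F a * Q.w⁻¹) * Q.w⁻¹ := by group
        _ = _ := by rw [Q.w_F, Q.w_E, neg_neg]
    exact mul_inv_eq_iff_eq_mul.1 this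

theorem w_inv : Q.w⁻¹ = Q.w := inv_eq_of_mul_eq_one_left Q.ww

theorem h_E {u : Lˣ} (hu : u ∈ Q.U) (a : L) : Q.h u * Q.E a * (Q.h u)⁻¹ = Q.E ((u : L) * a) :=
  (Q.tor u hu).1 a

theorem h_F {u : Lˣ} (hu : u ∈ Q.U) (a : L) :
    Q.h u * Q.F a * (Q.h u)⁻¹ = Q.F (((u⁻¹ : Lˣ) : L) * a) :=
  (Q.tor u hu).2 a

/-- `w h(u) w⁻¹ = h(u)⁻¹` -/
theorem w_h {u : Lˣ} (hu : u ∈ Q.U) : Q.w * Q.h u * Q.w⁻¹ = (Q.h u)⁻¹ := by
  have hi := Q.U.inv_mem hu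
  rw [← Q.h_inv hu]
  apply Q.tor_unique ?_ (Q.tor _ hi)
  have wE : ∀ a, Q.w⁻¹ * Q.E a * Q.w = Q.F (-a) := by
    intro a
    have := Q.w_E a
    rw [Q.w_inv] at this ⊢
    exact this
  have wF : ∀ a, Q.w⁻¹ * Q.F a * Q.w = Q.E (-a) := by
    intro a
    have := Q.w_F a
    rw [Q.w_inv] at this ⊢
    exact this
  constructor
  · intro a
    calc Q.w * Q.h u * Q.w⁻¹ * Q.E a * (Q.w * Q.h u * Q.w⁻¹)⁻¹
        = Q.w * (Q.h u * (Q.w⁻¹ * Q.E a * Q.w) * (Q.h u)⁻¹) * Q.w⁻¹ := by group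
      _ = _ := by
        rw [wE, Q.h_F hu, Q.w_F]; congr 1; ring
  · intro a
    calc Q.w * Q.h u * Q.w⁻¹ * Q.F a * (Q.w * Q.h u * Q.w⁻¹)⁻¹
        = Q.w * (Q.h u * (Q.w⁻¹ * Q.F a * Q.w) * (Q.h u)⁻¹) * Q.w⁻¹ := by group
      _ = _ := by
        rw [wF, Q.h_E hu, Q.w_E, inv_inv]; congr 1; ring

/-- `ω(u) = h(u)² w` for `u ∈ U` -/
theorem om_eq {u : Lˣ} (hu : u ∈ Q.U) : Q.om u = Q.h u * Q.h u * Q.w := by
  have e := Q.tor_of_weyl Q.weyl_one ((Q.weyl u).1 hu)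
  rw [inv_one, mul_one, mul_one] at e
  have := Q.tor_unique e ((Q.tor u hu).mul _ (Q.tor u hu))
  rw [← this]
  change Q.om u = Q.om u * (Q.om 1)⁻¹ * Q.om 1
  group

theorem om_smul {τ : Lˣ} (hτ : τ ∈ Q.U) (u : Lˣ) : Q.om (τ * u) = Q.h τ * Q.om u * (Q.h τ)⁻¹ :=
  (Q.om_tor (Q.tor τ hτ) u).symm

/-- `Ŝ(τu) = Ŝ(u)` -/
theorem S_smul {τ : Lˣ} (hτ : τ ∈ Q.U) {u σ : Lˣ} (h : Q.S u σ) : Q.S (τ * u) σ := by
  refine ⟨h.1, ?_⟩
  rw [Q.om_smul hτ]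
  have c : (Q.h τ)⁻¹ * Q.h σ = Q.h σ * (Q.h τ)⁻¹ := by
    rw [inv_mul_eq_iff_eq_mul, ← mul_assoc, eq_mul_inv_iff_mul_eq, Q.h_comm hτ h.1]
  calc Q.h τ * Q.om u * (Q.h τ)⁻¹ * Q.h σ * (Q.h τ * Q.om u * (Q.h τ)⁻¹)⁻¹
      = Q.h τ * Q.om u * ((Q.h τ)⁻¹ * Q.h σ) * Q.h τ * (Q.om u)⁻¹ * (Q.h τ)⁻¹ := by group
    _ = Q.h τ * (Q.om u * Q.h σ * (Q.om u)⁻¹) * (Q.h τ)⁻¹ := by rw [c]; group
    _ = Q.h τ * (Q.h σ)⁻¹ * (Q.h τ)⁻¹ := by rw [h.2]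
    _ = (Q.h σ)⁻¹ := by
      rw [mul_inv_eq_iff_eq_mul, mul_inv_eq_iff_eq_mul, mul_assoc, ← Q.h_comm h.1 hτ]
      group

theorem S_smul_iff {τ : Lˣ} (hτ : τ ∈ Q.U) {u σ : Lˣ} : Q.S (τ * u) σ ↔ Q.S u σ := by
  constructor
  · intro h
    have := Q.S_smul (Q.U.inv_mem hτ) h
    rwa [inv_mul_cancel_left] at this
  · exact Q.S_smul hτ

theorem S_one (u : Lˣ) : Q.S u 1 := ⟨Q.U.one_mem, by rw [Q.h_one]; simp⟩

theorem S_mul {u σ τ : Lˣ} (h1 : Q.S u σ) (h2 : Q.S u τ) : Q.S u (σ * τ) := by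
  refine ⟨Q.U.mul_mem h1.1 h2.1, ?_⟩
  rw [Q.h_mul h1.1 h2.1]
  calc Q.om u * (Q.h σ * Q.h τ) * (Q.om u)⁻¹
      = (Q.om u * Q.h σ * (Q.om u)⁻¹) * (Q.om u * Q.h τ * (Q.om u)⁻¹) := by group
    _ = (Q.h σ)⁻¹ * (Q.h τ)⁻¹ := by rw [h1.2, h2.2]
    _ = (Q.h τ * Q.h σ)⁻¹ := by group
    _ = _ := by rw [Q.h_comm h1.1 h2.1]

theorem S_inv {u σ : Lˣ} (h1 : Q.S u σ) : Q.S u σ⁻¹ := by
  refine ⟨Q.U.inv_mem h1.1, ?_⟩
  rw [Q.h_inv h1.1]
  calc Q.om u * (Q.h σ)⁻¹ * (Q.om u)⁻¹ = (Q.om u * Q.h σ * (Q.om u)⁻¹)⁻¹ := by group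
    _ = _ := by rw [h1.2]

theorem S_pow {u σ : Lˣ} (h1 : Q.S u σ) (n : ℕ) : Q.S u (σ ^ n) := by
  induction n with
  | zero => simpa using Q.S_one u
  | succ n ih => rw [pow_succ]; exact Q.S_mul ih h1

/-- all units have torus elements with `-1`: conjugation by `h(-1)` changes signs. -/
theorem neg_E (a : L) : Q.h (-1) * Q.E a * (Q.h (-1))⁻¹ = Q.E (-a) := by
  rw [Q.h_E Q.neg]; congr 1; simp

theorem neg_F (a : L) : Q.h (-1) * Q.F a * (Q.h (-1))⁻¹ = Q.F (-a) := by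
  rw [Q.h_F Q.neg]; congr 1; simp

end Fr

end Pool.Agent.Helper43.GD
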