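import Pool.Agent.Helper43.GD.Defs
import Pool.Agent.Helper60.DZ2.M_Red

/-!
PROJECT GD (MP_b3ce06_al, third hand-in; Q1: which simple groups are composition factors of finite
groups of deficiency zero).

THEOREM.  For every prime `p` with `p % 20 ∈ {3,7}` and `p % 3 ≠ 2` the group `PSL(2,p²)` is a
composition factor of a finite group of deficiency zero, namely of
`⟨a,w,t | a w a = w a_M w⁻¹, w⁻¹ t w = t⁻¹, a = a_1 a_2⟩`, `a_i = t⁻ⁱ a tⁱ`, `M = p+1`.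

Notation (Defs.lean): `Sys L A` = two additive maps `E,F : L → A`; `om u = E(u) F(-1/u) E(u)`;
`Weyl u`: `om u` maps `E(a)` to `F(-a/u²)` and `F(b)` to `E(-u² b)`; `IsTor u h`: `h` maps `E(a)` to
`E(ua)`, `F(b)` to `F(b/u)`.  A frame `Q : Fr L A` is a system where the Weyl units form a subgroup
`Q.U ∋ -1`, every `u ∈ Q.U` has a torus element `Q.h u`, and only `1` commutes with all `E(a), F(b)`.
`Q.S u σ` (`σ ∈ Ŝ(u)`) means: `σ ∈ U` and `om(u) h(σ) om(u)⁻¹ = h(σ)⁻¹`, for ANY unit `u`.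
Basic lemmas are PROVED in Defs.lean (h is multiplicative on `U`, `w² = 1`, `w h(u) w⁻¹ = h(u)⁻¹`,
`om u = h(u)² w` for `u ∈ U`, `om(τu) = h(τ) om(u) h(τ)⁻¹`, `Ŝ(u)` is a subgroup, `Ŝ(τu) = Ŝ(u)`, ...).

All modules are INDEPENDENT (the statements they use are hypotheses: prove
`theorem hXX (h1 : StYY) ... : StXX`).  In a module file: `import Pool.Agent.Helper43.GD.St`.
-/

set_option autoImplicit false

namespace Pool.Agent.Helper43.GD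

/-- MODULE RR (40 lines).  PROOF.  `om(a) = E(a) F(-1/a) E(a)` gives `E(a) F(b) =
om(a) E(-a) F(1/a + b) = om(a) E(-a) F(d/a)`.  `om(a/d) = E(a/d) F(-d/a) E(a/d)` gives
`F(d/a) = E(a/d) om(a/d)⁻¹ E(a/d)`.  So `E(a) F(b) = om(a) E(a/d - a) om(a/d)⁻¹ E(a/d)`.  As
`a ∈ U`, `om(a) E(c) om(a)⁻¹ = F(-c/a²)` with `c = a/d - a`, `-c/a² = (d-1)/(ad) = b/d`; and
`om(a) om(a/d)⁻¹ = h(a)² w w⁻¹ h(a/d)⁻² = h(d)²`. -/
def StRR : Prop :=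
  ∀ (L A : Type) [CommRing L] [Group A] (Q : Fr L A) (a d : Lˣ) (b : L), a ∈ Q.U → d ∈ Q.U →
    (d : L) = 1 + a * b →
    Q.E (a : L) * Q.F b =
      Q.F (((d⁻¹ : Lˣ) : L) * b) * (Q.h d * Q.h d) * Q.E (((d⁻¹ : Lˣ) : L) * a)

/-- MODULE ST (30 lines).  PROOF.  `om(u) h(σ) om(u)⁻¹ h(σ) = E(u) F(-1/u) E(u) h(σ) E(-u) F(1/u)
E(-u) h(σ) = E(u) F(-1/u) E((1-σ)u) F(1/(σu)) h(σ) E(-u) h(σ) = E(u) F(-1/u) E((1-σ)u) F(1/(σu))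
E(-σu) h(σ)²`.  This is `1` iff `E((1-σ)u) F(1/(σu)) = F(1/u) E(-u) h(σ)⁻² E(σu)
= F(1/u) E(-u) E(u/σ) h(σ)⁻² = F(1/u) E((1-σ)u/σ) h(σ)⁻²`. -/
def StST : Prop :=
  ∀ (L A : Type) [CommRing L] [Group A] (Q : Fr L A) (u σ : Lˣ), σ ∈ Q.U →
    (Q.S u σ ↔ Q.E ((1 - (σ : L)) * u) * Q.F (((σ⁻¹ : Lˣ) : L) * ((u⁻¹ : Lˣ) : L)) *
        (Q.h σ * Q.h σ) =
      Q.F ((u⁻¹ : Lˣ) : L) * Q.E ((1 - (σ : L)) * u * ((σ⁻¹ : Lˣ) : L)))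

/-- MODULE P1 (25 lines, uses RR ST).  PROOF.  ST and RR with `a = (1-σ)u = -v ∈ U` (as `-1 ∈ U`),
`d = σ⁻¹`, `b = σ⁻¹u⁻¹` (`1 + ab = 1 + (1-σ)/σ = 1/σ`): `E(a) F(b) = F(u⁻¹) h(σ)⁻² E(σa)`, and
`h(σ)⁻² E(σ a) h(σ)² = E(a/σ)`. -/
def StP1 : Prop :=
  ∀ (L A : Type) [CommRing L] [Group A] (Q : Fr L A) (u σ v : Lˣ), σ ∈ Q.U → v ∈ Q.U →
    (v : L) = ((σ : L) - 1) * u → Q.S u σ

/-- MODULE P2 (40 lines, uses ST).  Here `v = 1/((1-σ)u)`.  PROOF.  By ST, `Q.S v σ` says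
`E(1/u) F((1-σ)u/σ) h(σ)² = F((1-σ)u) E(σ⁻¹/u)` (`(1-σ)v = 1/u`, `1/v = (1-σ)u`).  Conjugate by `w`
(`w E(a) w⁻¹ = F(-a)`, `w F(b) w⁻¹ = E(-b)`, `w h w⁻¹ = h⁻¹`): equivalent to
`F(-1/u) E(-(1-σ)u/σ) h(σ)⁻² = E(-(1-σ)u) F(-σ⁻¹/u)`; conjugate by `h(-1)` (signs change):
`F(1/u) E((1-σ)u/σ) h(σ)⁻² = E((1-σ)u) F(σ⁻¹/u)`, which is the statement of ST for `Q.S u σ`. -/
def StP2 : Prop :=
  ∀ (L A : Type) [CommRing L] [Group A] (Q : Fr L A) (u σ v : Lˣ), σ ∈ Q.U →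
    (v : L) * ((1 - (σ : L)) * u) = 1 → (Q.S u σ ↔ Q.S v σ)

/-- MODULE P3 (70 lines).  PROOF.  Let `ω' = F(1/u) E(-u) F(1/u)`.
(1) `om(u)⁻¹ = E(-u) F(1/u) E(-u) = E(-u) ω' F(-1/u)`.
(2) `ω'` inverts `h(s')`: `w om(1/u) w⁻¹ = F(-1/u) E(u) F(-1/u)`, conjugate by `h(-1)`:
`ω' = (h(-1) w) om(1/u) (h(-1) w)⁻¹`; `om(1/u) h(s') om(1/u)⁻¹ = h(s')⁻¹`, conjugate by `h(-1) w`
(`w` inverts `h(s')`, `h(-1)` commutes with it): `ω' h(s')⁻¹ ω'⁻¹ = h(s')`, so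
`ω' h(s') ω'⁻¹ = h(s')⁻¹`.
(3) Let `σ = s'⁻¹` (also in `Ŝ(1/u)`) so `ω' h(σ) ω'⁻¹ = h(σ)⁻¹`.
`F(1/u) h(σ) F(-1/u) = F((1 - 1/σ)/u) h(σ)` and with (1) `om(u)⁻¹ [F(1/u) h(σ) F(-1/u)] om(u) =
E(-u) ω' h(σ) ω'⁻¹ E(u) = E(-u) h(σ)⁻¹ E(u) = E((1/σ - 1)u) h(σ)⁻¹`.  Hence (Q):
`om(u)⁻¹ F((1-1/σ)/u) h(σ) om(u) = E((1/σ-1)u) h(σ)⁻¹`.
(4) Conjugate (Q) by `h(s)`; `h(s) om(u)⁻¹ = om(u)⁻¹ h(s)⁻¹`, `h(s)⁻¹ F(b) h(s) = F(sb)`: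
`om(u)⁻¹ F(s(1-1/σ)/u) h(σ) om(u) = E(s(1/σ-1)u) h(σ)⁻¹`.  Divide by (Q):
`om(u)⁻¹ F((s-1)(1-1/σ)/u) om(u) = E((s-1)(1/σ-1)u)`, and `1/σ = s'`; this is the claim. -/
def StP3 : Prop :=
  ∀ (L A : Type) [CommRing L] [Group A] (Q : Fr L A) (u s s' : Lˣ), Q.S u s → Q.S u⁻¹ s' →
    Q.om u * Q.E ((u : L) * ((1 - (s : L)) * (1 - (s' : L)))) * (Q.om u)⁻¹ =
      Q.F (-(((u⁻¹ : Lˣ) : L) * ((1 - (s : L)) * (1 - (s' : L)))))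

/-- MODULE CMB (60 lines, uses P3).  PROOF.  `N = {y : om(u) E(u y) om(u)⁻¹ = F(-(y/u))}` is an
additive subgroup of `L`, stable under `y ↦ s y` (`om(u) h(s) = h(s)⁻¹ om(u)`:
`om(u) E(s y) om(u)⁻¹ = h(s)⁻¹ (om(u) E(y) om(u)⁻¹) h(s)` and `h(s)⁻¹ F(b) h(s) = F(s b)`), and
contains the unit `y₀ = (1-s)(1-s')` by P3.  `{z : z y₀ ∈ N}` contains `1`, is stable under `s`, so by
`Gn s` it is everything; so `N = L`, i.e. `om(u) E(a) om(u)⁻¹ = F(-a/u²)` for all `a`.  With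
`a = -u²b`: `om(u)⁻¹ F(b) om(u) = E(-u²b)`.  Conjugate by `h(-1)` (which maps `om(u)` to
`om(-u) = om(u)⁻¹`): `om(u) F(-b) om(u)⁻¹ = E(u²b)`.  So `u` is Weyl, `u ∈ U`. -/
def StCMB : Prop :=
  ∀ (L A : Type) [CommRing L] [Group A] (Q : Fr L A) (u s s' : Lˣ), Q.S u s → Q.S u⁻¹ s' →
    IsUnit ((1 - (s : L)) * (1 - (s' : L))) → Gn (s : L) → u ∈ Q.U

/-- MODULE GNS (80 lines, ring theory).  PROOF.  `x² = 1 - x`, `x³ = 2x - 1`.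
`Gn x`: every element is `m + n x`.  `Gn (x²)`: `N ∋ 1`, stable under `x² = 1 - x`; so
`1 - x ∈ N`, `x ∈ N`.  `Gn (x³)`: `2x - 1 ∈ N`, so `2x ∈ N`; `2` is a unit of the finite ring `L`,
so `2^k = 1` for some `k > 0` and `x = 2^(k-1) (2x) ∈ N`.
`i = x^(M/2)`: `i² = x^M = -1`.  `Gn i`: let `y = -1 - x = -x⁻¹` (other root: `x y = -x - x² = -1`).  By
induction there are integers `A_n, B_n` (`A_{n+1} = B_n`, `B_{n+1} = A_n - B_n`) with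
`x^n = A_n + B_n x` and `y^n = A_n + B_n y`.  For `n = M/2`, which is even, `y^n = x^(-n) = i⁻¹ = -i`.
So `2i = B (x - y) = B (2x + 1)`, `B` is an integer which is a unit in `L` (as `2i` is a unit), so
`B^k = 1` in `L` for some `k > 0`; `i = A + B x`, so for `N ∋ 1` stable under `i`: `i ∈ N`,
`B x ∈ N`, `x = B^(k-1) (B x) ∈ N`. -/
def StGNS : Prop :=
  ∀ (L : Type) [CommRing L] (M : ℕ) (x : Lˣ), Rg L M x →
    Gn (x : L) ∧ Gn ((x ^ 2 : Lˣ) : L) ∧ Gn ((x ^ 3 : Lˣ) : L) ∧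
    ((x ^ (M / 2) : Lˣ) : L) ^ 2 = -1 ∧ Gn ((x ^ (M / 2) : Lˣ) : L)

/-- MODULE TX (40 lines, uses P2 CMB GNS).  PROOF.  `1 - x = x²`, `1 - x² = x` units.  If `σ = x`:
P2 with `v = 1/((1-x)u) = x⁻² u⁻¹` gives `x ∈ Ŝ(x⁻²u⁻¹) = Ŝ(u⁻¹)` (`S_smul_iff`, `x⁻² ∈ U`).  CMB
with `s = s' = x`.  If `σ = x²`: `v = 1/((1-x²)u) = x⁻¹u⁻¹`, `x² ∈ Ŝ(u⁻¹)`; CMB with
`s = s' = x²`. -/
def StTX : Prop :=
  ∀ (L A : Type) [CommRing L] [Group A] (Q : Fr L A) (M : ℕ) (x : Lˣ), Rg L M x → x ∈ Q.U →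
    ∀ u : Lˣ, (Q.S u x ∨ Q.S u (x ^ 2)) → u ∈ Q.U

/-- MODULE TWO (80 lines, uses P1 P2 CMB GNS).  PROOF.  Let `c : Lˣ` be the unit `2`.  General fact
(L10): if `y ∈ U` and `v (1-y) = 1` then `y ∈ Ŝ(v)` (P1: `(y-1)v = -1 ∈ U`).
`x³ = 2x - 1`, `1 - x³ = 2 - 2x = 2x²`, `1 + x³ = 2x`.  L10 with `y = x³`: `x³ ∈ Ŝ(1/(2x²)) = Ŝ(1/2)`
(`S_smul_iff`).  L10 with `y = x⁶`: `1 - x⁶ = 4x³`, `x⁶ ∈ Ŝ(1/(4x³)) = Ŝ(1/4)`.
`-1 = x^(6k)` for some `k`: `x^M = -1`; `M = 2m`, `m` even, `3 ∤ m`, so `3k ≡ m (mod 2m)` is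
solvable and `x^(6k) = x^(2m) = -1`, as `x^(4m) = 1`.  So `-1 ∈ Ŝ(1/4)` (`S_pow`).  P2 with
`σ = -1`, `u = 2`, `v = 1/(2·2) = 1/4`: `-1 ∈ Ŝ(2)`.  CMB with `u = 1/2`, `s = x³`, `s' = -1`
(`u⁻¹ = 2`): `(1-x³)·2 = 4x²` is a unit, `Gn (x³)`.  So `1/2 ∈ U`, `2 ∈ U`. -/
def StTWO : Prop :=
  ∀ (L A : Type) [CommRing L] [Group A] (Q : Fr L A) (M : ℕ) (x : Lˣ), Rg L M x → x ∈ Q.U →
    Q.In (2 : L)

/-- MODULE L13 (50 lines, uses P1 P2 CMB TWO).  PROOF.  `1 - y` is a unit: it divides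
`1 - y^m = 2`.  Let `u = 1/(1-y)`.  `y ∈ Ŝ(u)` by P1 (`(y-1)u = -1 ∈ U`), so `-1 = y^m ∈ Ŝ(u)`
(`S_pow`).  P2 with `σ = -1`, `v = 1/(2u)`: `-1 ∈ Ŝ(2⁻¹u⁻¹) = Ŝ(u⁻¹)` (`2⁻¹ ∈ U` by TWO).  CMB with
`s = y`, `s' = -1`: `(1-y)·2` is a unit, `Gn y`.  So `u ∈ U` and `1 - y = u⁻¹ ∈ U`. -/
def StL13 : Prop :=
  ∀ (L A : Type) [CommRing L] [Group A] (Q : Fr L A) (M : ℕ) (x : Lˣ), Rg L M x → x ∈ Q.U →
    ∀ y ∈ Q.U, ∀ m : ℕ, (y : L) ^ m = -1 → Gn (y : L) → Q.In (1 - (y : L))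

/-- MODULE SA (60 lines, uses RR).  PROOF.  Let `d₁ = 1 + a₁b`.  RR: `E(a₁)F(b) = F(b/d₁) h(d₁)²
E(a₁/d₁)`.  With `a₂ = a - a₁`: `1 + a₂b/d₁ = (1+ab)/d₁ = 1/d₁` (`ab = 0`), so RR for
`(a₂, b/d₁, 1/d₁)`: `E(a₂) F(b/d₁) = F(b) h(d₁)⁻² E(a₂d₁)`.  So `E(a)F(b) = E(a₂)E(a₁)F(b) =
F(b) h(d₁)⁻² E(a₂d₁) h(d₁)² E(a₁/d₁) = F(b) E(a₂/d₁) E(a₁/d₁) = F(b) E(a/d₁)`; and
`a (1 + a₁b) = a`, so `a/d₁ = a`. -/
def StSA : Prop :=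
  ∀ (L A : Type) [CommRing L] [Group A] (Q : Fr L A) (a b : L) (a₁ a₂ d₁ : Lˣ), a₁ ∈ Q.U →
    a₂ ∈ Q.U → d₁ ∈ Q.U → a * b = 0 → (a₂ : L) = a - a₁ → (d₁ : L) = 1 + a₁ * b →
    Q.E a * Q.F b = Q.F b * Q.E a

/-- MODULE SB (60 lines, uses P1 TX).  PROOF.  `y = ιx ∈ U`; `(1-y)(1+y) = 1 - x² = x`, so `1 - y`
is a unit; let `v = 1/(1-y)`.  P1: `y ∈ Ŝ(v)` (`(y-1)v = -1 ∈ U`), so `y² = x² ∈ Ŝ(v)` (`S_mul`), TX:
`v ∈ U`, `1 - ιx ∈ U`.  With `2ε = 1 + ι` (so `ε² = ε`, `ει = ε`, `(1-ε)ι = -(1-ε)`):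
`1 - ιx = ε(1-x) + (1-ε)(1+x) = εx² + (1-ε)x⁻¹`; times `x`: `εx³ + (1-ε) ∈ U`. -/
def StSB : Prop :=
  ∀ (L A : Type) [CommRing L] [Group A] (Q : Fr L A) (M : ℕ) (x : Lˣ), Rg L M x → x ∈ Q.U →
    ∀ (ι : Lˣ) (ε : L), ι ∈ Q.U → (ι : L) ^ 2 = 1 → 2 * ε = 1 + ι →
      Q.In (ε * (x : L) ^ 3 + (1 - ε))

/-- MODULE SC (80 lines, uses SA SB GNS).  PROOF.  `ε² = ε` (`4ε² = (1+ι)² = 2+2ι = 4ε`, `2` a unit).
SA with `a = 2ε`, `b = -2(1-ε)`, `a₁ = 1`, `a₂ = 2ε - 1 = ι`, `d₁ = 1 - 2(1-ε) = ι`: `E(2ε)`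
commutes with `F(-2(1-ε))`.  Conjugating by `h(τ)`, `τ ∈ U`: `E(2ετ)` commutes with
`F(-2(1-ε)/τ)`.  By SB (with `ι, ε` and with `-ι, 1-ε`; `-ι ∈ U`): `σ₁ = εx³ + (1-ε) ∈ U`,
`σ₂ = ε + (1-ε)x³ ∈ U`.  `τ = σ₁^i σ₂^(-j)`: `ετ = εx^(3i)`, `(1-ε)/τ = (1-ε)x^(3j)`.  So `E(2εx^(3i))`
commutes with `F(-2(1-ε)x^(3j))` for all `i, j : ℕ`.  For fixed `j` the set
`{a : E(2εa) commutes with F(..)}` is an additive subgroup; the powers of `x³` span `L` additively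
(`Gn (x³)` applied to their closure), so it is everything; then the same for `b`.  Finally `2` is a
unit. -/
def StSC : Prop :=
  ∀ (L A : Type) [CommRing L] [Group A] (Q : Fr L A) (M : ℕ) (x : Lˣ), Rg L M x → x ∈ Q.U →
    ∀ (ι : Lˣ) (ε : L), ι ∈ Q.U → (ι : L) ^ 2 = 1 → 2 * ε = 1 + ι →
      ∀ a b : L, Q.E (ε * a) * Q.F ((1 - ε) * b) = Q.F ((1 - ε) * b) * Q.E (ε * a)

/-- MODULE SD (80 lines; a statement on systems `Sys`, no frame).  PROOF.  `L' = L ⧸ (1-ε)`.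
`E'(a mod (1-ε)) = E(εa)`, `F'(b mod (1-ε)) = F(εb)` are well defined (`a ∈ (1-ε)L` implies
`εa = 0`), additive: a system `s'` over `L'` in `A`, `x' =` image of `x`.  Put
`om₁ = E(εu) F(-ε/u) E(εu)` (`= s'.om` of the image of `u`) and `om₂` the same with `1-ε`.  All of
`E(εL), F(εL)` commute with all of `E((1-ε)L), F((1-ε)L)` (`E, F` are additive, and hypothesis), so
`om(u) = om₁ om₂`, and `om₂` commutes with `E(εL), F(εL)`: for a Weyl unit `u`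
`om₁ E(εa) om₁⁻¹ = om(u) E(εa) om(u)⁻¹ = F(-εa/u²)`, so the image of `u` is a Weyl unit of `s'`
(`u = 1`, `u = x`).  `Rg L' M x'` clear (quotient of `L`).  So `s'.gp` is finite by the hypothesis
(`FinP L' x'`).  -/
def StSD : Prop :=
  ∀ (L A : Type) [CommRing L] [Group A] (s : Sys L A) (M : ℕ) (x : Lˣ), Rg L M x →
    s.Weyl 1 → s.Weyl x →
    ∀ ε : L, ε ^ 2 = ε → ε ≠ 1 →
      (∀ (L' : Type) [CommRing L'] (x' : L'ˣ), Rg L' M x' → Nat.card L' < Nat.card L →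
        FinP L' x') →
      (∀ a b : L, s.E (ε * a) * s.F ((1 - ε) * b) = s.F ((1 - ε) * b) * s.E (ε * a)) →
      (∀ a b : L, s.E ((1 - ε) * a) * s.F (ε * b) = s.F (ε * b) * s.E ((1 - ε) * a)) →
      Finite (Subgroup.closure (Set.range (fun a => s.E (ε * a)) ∪ Set.range (fun a => s.F (ε * a))))

/-- MODULE SE (60 lines, uses SC SD).  PROOF.  `ε` with `2ε = 1 + ι` (`2` a unit), `ε² = ε`,
`ε ≠ 1` (`ι ≠ 1`), `ε ≠ 0` (`ι ≠ -1`).  SC with `(ι, ε)` and with `(-ι, 1-ε)` gives the two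
commutation hypotheses; SD with `ε` and with `1-ε` gives finite subgroups `G₁, G₂` (`1-ε ≠ 1`).
They commute elementwise (generators commute), and `Q.gp` is contained in the set `G₁ G₂`
(`E(a) = E(εa) E((1-ε)a)`), a finite subgroup (the image of `G₁ × G₂`). -/
def StSE : Prop :=
  ∀ (L A : Type) [CommRing L] [Group A] (Q : Fr L A) (M : ℕ) (x : Lˣ), Rg L M x → x ∈ Q.U →
    (∀ (L' : Type) [CommRing L'] (x' : L'ˣ), Rg L' M x' → Nat.card L' < Nat.card L →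
        FinP L' x') →
    ∀ ι ∈ Q.U, (ι : L) ^ 2 = 1 → ι ≠ 1 → ι ≠ -1 → Finite Q.gp

/-- Case B: the only involution of `U` is `-1`. -/
def CB {L A : Type} [CommRing L] [Group A] (Q : Fr L A) (M : ℕ) (x : Lˣ) : Prop :=
  Rg L M x ∧ x ∈ Q.U ∧ Nontrivial L ∧ ∀ ι ∈ Q.U, (ι : L) ^ 2 = 1 → ι = 1 ∨ ι = -1

/-- MODULE B2 (80 lines, uses L13 GNS).  `y ∈ U` with `y^m = -1` implies `1 - y ∈ U`.
PROOF.  `U` is finite; `n = orderOf y` is even (`-1 ≠ 1` as `2` is a unit and `L ≠ 0`; if `n` were odd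
then `-1 = (-1)^n = y^(mn) = 1`).  Let `i = x^(M/2) ∈ U`, `i² = -1`, `Gn i`; then also `Gn (-i)`.
(a) If `4 ∣ n`: `z = y^(n/4)` has order 4, `z²` is an involution in `U`, so `z² = -1`, `(z/i)² = 1`,
`z = ±i`.  An `N ∋ 1` stable under `y` is stable under `z = ±i`, so it is everything: `Gn y`.  L13.
(b) Else `n = 2k`, `k` odd, `y^k = -1` (an involution `≠ 1`), `z = -y` satisfies `z^k = 1`,
`z = v²` with `v = z^((k+1)/2)`, `v^k = 1`.  `1 - y = 1 + v² = (1 - iv)(1 + iv)`.  `iv` and `-iv`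
are in `U`, `(±iv)^k = ±i^k` (sign), so a power `(±iv)^(2k) = i^(2k) = (-1)^k = -1` and the order of `±iv` is
divisible by 4 (`(iv)^(2k) = -1`: the order does not divide `2k`, divides `4k`, `k` odd, hence
divisible by 4).  By (a) `1 ∓ iv ∈ U`; the product is in `U`. -/
def StB2 : Prop :=
  ∀ (L A : Type) [CommRing L] [Group A] (Q : Fr L A) (M : ℕ) (x : Lˣ), CB Q M x →
    ∀ y ∈ Q.U, ∀ m : ℕ, (y : L) ^ m = -1 → Q.In (1 - (y : L))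

/-- MODULE B3 (90 lines, uses B2 GNS).  PROOF.  `U` finite.  Call `y ∈ U` even if `y^m = -1` for some
`m`, odd if its order is odd.  Every `y ∈ U` is exactly one of the two (if the order `n` is even,
`y^(n/2)` is an involution in `U`, so `-1`; and see B2).  If `y` is even: B2.  Let `y` be odd and
suppose `1 - y ∉ U`.  For even `τ`: `yτ` is even (`(yτ)^k = 1` with `k` odd would give
`τ^(k ord y) = 1`), so `1-τ, 1-yτ ∈ U` by B2, `ρ = (1-τ)/(1-yτ) ∈ U`.  `ρ` is odd: otherwise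
`1-ρ ∈ U`, `1 - ρ = τ(1-y)/(1-yτ)`, so `1-y = τ⁻¹(1-ρ)(1-yτ) ∈ U`.  `τ ↦ ρ` is injective:
`(1-τ)(1-yτ') = (1-τ')(1-yτ)` gives `(τ'-τ)(1-y) = 0` and `1-y` is a unit.  So #even ≤ #odd.  But
`z ↦ -z` and `z ↦ iz` (`i = x^(M/2)`, `i² = -1`) map odd elements injectively to even elements with
disjoint images (`-z = iz'` gives `i = -z/z'`, `i² = (z/z')²` of odd order and `= -1`, impossible),
so #even ≥ 2 #odd > #odd (`1` is odd), contradiction. -/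
def StB3 : Prop :=
  ∀ (L A : Type) [CommRing L] [Group A] (Q : Fr L A) (M : ℕ) (x : Lˣ), CB Q M x →
    ∀ y ∈ Q.U, IsUnit (1 - (y : L)) → Q.In (1 - (y : L))

/-- MODULE B4 (120 lines, uses B2 GNS).  For a maximal ideal `P` the set
`{z - 1 : z ∈ U, z - 1 ∈ P}` is an ideal.  PROOF.  `Z = {z ∈ U : z - 1 ∈ P}` is a subgroup of `U`,
`Δ = Z - 1`.  Even/odd as in B3.  Every `z ∈ Z` is odd (`z^m = -1` gives `-2 ∈ P`, but `2` is a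
unit).  (1) For even `τ ∈ U` and `δ = z - 1 ∈ Δ`: `zτ` is even, `1-τ, 1-zτ ∈ U` (B2),
`(1-zτ)/(1-τ) = 1 - δτ/(1-τ) ∈ U` and it is `1` mod `P`, so `-δτ/(1-τ) ∈ Δ`.  Applied to `τ⁻¹`
(even): `-τ⁻¹/(1-τ⁻¹) = 1/(1-τ)`: `Δ` is stable under `1/(1-τ)`, hence (finite order) under `1-τ`,
for all even `τ`.  (2) so `Δ` is stable under `-τ = (-τ/(1-τ)) (1-τ)`, for all even `τ`; `τ = i`:
`(-i)² = -1`; so `Δ` is stable under `-1` and all even `τ`, and for odd `z`, `-z` is even; so `Δ` is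
stable under `U`.  (3) additive: `δ, δ' ∈ Δ`: `(1+δ)(1 + δ'/(1+δ)) = 1 + δ + δ'`, and
`δ'/(1+δ) ∈ Δ` by (2), so `δ + δ' ∈ Δ`.  (4) `0 ∈ Δ`; an additive subgroup stable under `x ∈ U` is an
ideal (`L = ℤ + ℤx`). -/
def StB4 : Prop :=
  ∀ (L A : Type) [CommRing L] [Group A] (Q : Fr L A) (M : ℕ) (x : Lˣ), CB Q M x →
    ∀ P : Ideal L, P.IsMaximal → ∃ I : Ideal L, ∀ δ : L, δ ∈ I ↔ δ ∈ P ∧ Q.In (1 + δ)

/-- MODULE B5 (80 lines, uses B3 B4 GNS).  PROOF.  For a maximal ideal `P` let `I_P` be as in B4.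
`1 + I_P ⊂` units, so `I_P` is contained in the Jacobson radical (`1 + a δ` is a unit for all `a`), i.e.
in every maximal ideal `P'`; so `I_P ⊂ I_{P'}`, and all the `I_P` are equal to one ideal `I`.  If
`y ∈ U` and `1 - y` is not a unit, then `y - 1 ∈ P` for some maximal `P`, so `y - 1 ∈ I`.
`S = {a : a ∈ I ∨ In a}` is an additive subgroup: `I + I ⊂ I`; `ε + δ = ε(1 + δ/ε)` (`ε ∈ U`,
`δ ∈ I`) is in `U`; `ε + ε' = ε(1 - y)`, `y = -ε'/ε ∈ U`: if `1 - y` is a unit it is in `U` by B3,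
else it is in `I`; `-1 ∈ U`.  `1 ∈ S`, stable under `x`; by `Gn x` `S = L`.  A unit is not in `I`
(`I ⊂ P`, `L` nontrivial), so it is in `U`.  Nonunits are in `I`, so `L` is local. -/
def StB5 : Prop :=
  ∀ (L A : Type) [CommRing L] [Group A] (Q : Fr L A) (M : ℕ) (x : Lˣ), CB Q M x →
    IsLocalRing L ∧ ∀ u : Lˣ, u ∈ Q.U

/-- MODULE RL (70 lines, uses RR).  PROOF.  `P` = maximal ideal.  If `a` is a unit: RR.  Else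
`a ∈ P`.  There is `κ = ±1` with `d₁ = 1 + κb` a unit (if `1+b, 1-b ∈ P` then `2 ∈ P`).
`a = κ + a₂`, `a₂ = a - κ` a unit.  `E(a)F(b) = E(a₂)E(κ)F(b) = E(a₂) F(b/d₁) h(d₁)² E(κ/d₁)` and,
as `1 + a₂b/d₁ = (d₁ + a₂b)/d₁ = d/d₁`: `E(a₂)F(b/d₁) = F(b/d) h(d/d₁)² E(a₂d₁/d)`.  So
`E(a)F(b) = F(b/d) h(d/d₁)² E(a₂d₁/d) h(d₁)² E(κ/d₁) = F(b/d) h(d)² E(a₂/(dd₁)) E(κ/d₁)` and
`a₂/(dd₁) + κ/d₁ = (a₂ + κd)/(dd₁) = a(1+κb)/(dd₁) = a/d`. -/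
def StRL : Prop :=
  ∀ (L A : Type) [CommRing L] [Group A] (Q : Fr L A), IsLocalRing L → IsUnit (2 : L) →
    (∀ u : Lˣ, u ∈ Q.U) → ∀ (a b : L) (d : Lˣ), (d : L) = 1 + a * b →
    Q.E a * Q.F b = Q.F (((d⁻¹ : Lˣ) : L) * b) * (Q.h d * Q.h d) * Q.E (((d⁻¹ : Lˣ) : L) * a)

/-- MODULE CEL (110 lines, uses RL).  PROOF.  Let `C = {E(a) F(b) h(y) E(c)}`; it is finite (image
of `L × L × Lˣ × L`).  We show `C` is closed under right multiplication by all `E(c')` (clear) and all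
`F(b')`; as `1 ∈ C` and the generators are closed under inverses, `Q.gp ⊂ C`.
`E(a) F(b) h(y) E(c) F(b') = E(a) h(y) [F(yb) E(c) F(b')]` (`h(y)⁻¹ F(b) h(y) = F(yb)`), and `C` is
closed under left multiplication by `E(a)` and by `h(y)` (`h E(a) = E(ya) h` ...), so it is enough
that `F(b₁) E(c) F(b₂) ∈ C` for all `b₁, c, b₂`.  Choose `κ ∈ {0, 1, -1}` such that
`1 + (c-κ)b₁` and `1 + κb₂` are units (each of them is a nonunit for at most one class of `κ` modulo the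
maximal ideal, and `0, 1, -1` are in three different classes as `2` is a unit).  RL for
`E(κ)F(b₂) = F(B') h(D')² E(A')`; the inverse form of RL (take inverses, change signs):
`F(b₁) E(c-κ) = E(A) h(D)⁻² F(B)`.  So `F(b₁)E(c)F(b₂) = E(A) h(D)⁻² F(B + B') h(D')² E(A') =
E(A) F(D²(B+B')) h(D'²/D²) E(A') ∈ C`. -/
def StCEL : Prop :=
  ∀ (L A : Type) [CommRing L] [Group A] (Q : Fr L A), Finite L → IsLocalRing L → IsUnit (2 : L) →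
    (∀ u : Lˣ, u ∈ Q.U) → Finite Q.gp

/-- a universal system -/
def IsHat {L H : Type} [CommRing L] [Group H] (x : Lˣ) (s : Sys L H) : Prop :=
  s.Weyl 1 ∧ s.Weyl x ∧ s.gp = ⊤ ∧
  ∀ (A : Type) [Group A] (s' : Sys L A), s'.Weyl 1 → s'.Weyl x →
    ∃ φ : H →* A, (∀ a, φ (s.E a) = s'.E a) ∧ (∀ b, φ (s.F b) = s'.F b)

/-- MODULE HAT (60 lines).  PROOF.  `PresentedGroup` on the generators `L ⊕ L` with the obvious
relators (`PresentedGroup.toGroup`, `PresentedGroup.closure_range_of`). -/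
def StHAT : Prop :=
  ∀ (L : Type) [CommRing L] (x : Lˣ), ∃ (H : Type) (_ : Group H) (s : Sys L H), IsHat x s

/-- MODULE UN (120 lines).  PROOF.  (0) two homomorphisms from `H` which agree on all `E(a), F(b)` are
equal (`s.gp = ⊤`).  (1) `k = om(x) om(1)⁻¹` is a torus element with parameter `x²`
(`Sys.tor_of_weyl`); Weyl `u` implies Weyl `x²u` (`Sys.weyl_tor`).  In particular `x²` is Weyl.
(2) If `u` and `xu` are Weyl then `E'(a) = E(ua)`, `F'(b) = F(b/u)` is a system in `H` for which `1`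
and `x` are Weyl (`om'(v) = om(uv)`), so there is a homomorphism `α_u : H → H` with
`α_u(E(a)) = E(ua)`, `α_u(F(b)) = F(b/u)`.  It maps `om(v)` to `om(uv)`.  Applied with `u = x`: `α_x`
exists.  `x^(2M) = 1`, so `α_x^(2M) = id` and `α_x` is surjective.  (3) If `u` is Weyl, then applying
`α_x` to the Weyl relations of `u` (`E(a) = α_x(E(a/x))`) `xu` is Weyl.  So `α_u` exists for every
Weyl `u`, and in the same way (`u` is invertible: `E(a) = α_u(E(a/u))`) `uv` is Weyl for Weyl `u, v`.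
`Lˣ` is finite, so `u⁻¹` is a power of `u` and is Weyl; `-1 = x^M` is Weyl.  `α_u` is bijective (with
`α_(u⁻¹)`). -/
def StUN : Prop :=
  ∀ (L H : Type) [CommRing L] [Group H] (M : ℕ) (x : Lˣ) (s : Sys L H), Rg L M x → IsHat x s →
    s.Weyl (-1) ∧ (∀ u v, s.Weyl u → s.Weyl v → s.Weyl (u * v)) ∧ (∀ u, s.Weyl u → s.Weyl u⁻¹) ∧
    ∀ u, s.Weyl u → ∃ α : MulAut H, (∀ a, α (s.E a) = s.E ((u : L) * a)) ∧
      (∀ b, α (s.F b) = s.F (((u⁻¹ : Lˣ) : L) * b))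

/-- MODULE PF (30 lines).  PROOF.  `k = om(x) om(1)⁻¹` has parameter `x²` (`Sys.tor_of_weyl`).
`E((x²-1)a) = k E(a) k⁻¹ E(a)⁻¹` is a commutator, `x² - 1 = -x` is a unit; `F((x⁻²-1)b) =
k F(b) k⁻¹ F(b)⁻¹`, `x⁻² - 1 = x⁻²(1-x²) = x⁻¹`. -/
def StPF : Prop :=
  ∀ (L H : Type) [CommRing L] [Group H] (M : ℕ) (x : Lˣ) (s : Sys L H), Rg L M x →
    s.Weyl 1 → s.Weyl x → s.gp = ⊤ → commutator H = ⊤

/-- MODULE CT (50 lines).  PROOF.  `Γ = commutator`.  (a) `conj(θ g) = θ conj(g) θ⁻¹`, so for `g ∈ S`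
`conj(θ g) = conj g`; the set of all `g` with this property is a subgroup, so it holds for all
`g ∈ H`: `g⁻¹ θ(g)` is central.  `g ↦ g⁻¹θ(g)` is then a homomorphism to the centre, an abelian group,
so trivial as `H` is perfect. -/
def StCT : Prop :=
  ∀ (H : Type) [Group H], commutator H = ⊤ → ∀ S : Set H, Subgroup.closure S = ⊤ →
    ∀ θ : MulAut H, (∀ g ∈ S, θ * MulAut.conj g = MulAut.conj g * θ) → θ = 1

/-- MODULE WM (100 lines).  PROOF.  (Grün: `Pool.Agent.Helper60.DZ2.Red_grun`: in a perfect group an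
element which is central modulo the centre is central.)  `conj g = conj k` iff `k⁻¹g` is central.  Let
`k = om(x) om(1)⁻¹`, parameter `x²` (`Sys.tor_of_weyl`).  `c = om(u) k om(u)⁻¹ k` commutes with all
`E(a), F(b)` modulo the centre (by the hypotheses, in `MulAut H`:
`conj(om u)⁻¹` maps `conj E(a)` to `conj F(-a/u²)`, `conj k` maps this to `conj F(-a/(u²x²))`,
`conj(om u)` to `conj E(a/x²)`, so `conj(om(u) k om(u)⁻¹)` acts as `conj k⁻¹`), so `c` is central modulo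
the centre (`s.gp = ⊤`), so central.
`om(u) E(a) om(u)⁻¹ = F(-a/u²) z(a)`, `z(a)` central; `z` is additive→multiplicative.  `k E(a) k⁻¹ =
E(x²a)`: `om(u) E(x²a) om(u)⁻¹ = (om(u) k om(u)⁻¹) (om(u) E(a) om(u)⁻¹) (..)⁻¹ = k⁻¹ F(-a/u²) z(a) k =
F(-x²a/u²) z(a)`, so `z(x²a) = z(a)`, `z((x²-1)a) = 1`, and `x² - 1 = -x` is a unit: `z = 1`.  The same
for `F`. -/
def StWM : Prop :=
  ∀ (L H : Type) [CommRing L] [Group H] (M : ℕ) (x : Lˣ) (s : Sys L H), Rg L M x →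
    s.Weyl 1 → s.Weyl x → s.gp = ⊤ → commutator H = ⊤ → ∀ u : Lˣ,
    (∀ a, MulAut.conj (s.om u * s.E a * (s.om u)⁻¹) =
      MulAut.conj (s.F (-(((u⁻¹ : Lˣ) : L) * ((u⁻¹ : Lˣ) : L) * a)))) →
    (∀ b, MulAut.conj (s.om u * s.F b * (s.om u)⁻¹) =
      MulAut.conj (s.E (-((u : L) * (u : L) * b)))) → s.Weyl u

/-- MODULE AU (60 lines, uses UN PF CT WM).  PROOF.  In `MulAut H` take `E'(a) = conj E(a)`,
`F'(b) = conj F(b)` (`om'(u) = conj om(u)`).  `u` is Weyl for the new system iff Weyl for `s` (`⇐`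
clear, `⇒` WM).  `U` = the subgroup of Weyl units (UN), `h u = α_u` from UN for Weyl `u`
(`α conj(g) α⁻¹ = conj(α g)`), `h u = 1` otherwise.  `cent`: CT with `S = range E ∪ range F`. -/
def StAU : Prop :=
  ∀ (L H : Type) [CommRing L] [Group H] (M : ℕ) (x : Lˣ) (s : Sys L H), Rg L M x → IsHat x s →
    ∃ Q : Fr L (MulAut H), x ∈ Q.U ∧ (∀ a, Q.E a = MulAut.conj (s.E a)) ∧
      (∀ b, Q.F b = MulAut.conj (s.F b))

/-- MODULE IN (80 lines, uses HAT PF AU SE B5 CEL).  PROOF.  Strong induction on `Nat.card L`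
(all `L`, `x` simultaneously, `M` fixed).  If `L` is trivial, `E(a) = E(0) = 1 = F(b)`.  Otherwise take
the universal `s : Sys L H` (HAT), `Q` (AU).  If some `ι ∈ Q.U` has `ι² = 1`, `ι ≠ 1, -1`: `Q.gp` is
finite by SE and induction.  Otherwise `CB Q M x`, so B5 and CEL: `Q.gp` is finite.  `Q.gp` is the
range of `conj : H → MulAut H` (as `s.gp = ⊤`), whose kernel is the centre; so `H/Z(H)` is finite, and
`H` is perfect (PF), so `H` is finite by Schur (`Pool.Agent.Helper60.DZ2.Red_schur`).  For any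
`(A, s')` the universal map `φ : H → A` has range containing `s'.gp`, so `s'.gp` is finite. -/
def StIN : Prop :=
  ∀ (M : ℕ) (L : Type) [CommRing L] (x : Lˣ), Rg L M x → FinP L x

/-- `a_i = t⁻ⁱ a tⁱ` -/
def cj {G : Type} [Group G] (a t : G) (i : ℤ) : G := t ^ (-i) * a * t ^ i

/-- the three relations -/
def Rel {G : Type} [Group G] (M : ℕ) (a w t : G) : Prop :=
  a * w * a = w * cj a t M * w⁻¹ ∧ w⁻¹ * t * w = t⁻¹ ∧ a = cj a t 1 * cj a t 2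

/-- MODULE KA (70 lines).  PROOF.  Write `a_j = cj a t j`; `a_j = a_(j+1) a_(j+2)`; `w t^k w⁻¹ =
w⁻¹ t^k w = t^(-k)`.
F1: `w a_j w⁻¹ = t^(j-M) (w a_M w⁻¹) t^(M-j) = t^(j-M) a w a t^(M-j) = a_(M-j) w a_(j-M) t^(2(M-j))`.
F2: `w⁻¹ a w = a_M w⁻¹ a⁻¹` and `w⁻¹ a_j w = t^j a_M w⁻¹ a⁻¹ t^(-j) = a_(M-j) w⁻¹ a_j⁻¹ t^(-2j)`.
T: `a_j⁻¹ t a_j = t a_(j+2)` (`t⁻¹ a_j⁻¹ t a_j = a_(j+1)⁻¹ a_j = a_(j+2)`).
Conjugate `t` by both sides of `w a_M w⁻¹ = a w a`: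
`(w a_M w⁻¹)⁻¹ t (w a_M w⁻¹) = w (a_M⁻¹ t a_M)⁻¹ w⁻¹ = (w a_(M+2) w⁻¹)⁻¹ t = t⁴ a_2⁻¹ w⁻¹ a_(-2)⁻¹ t =
a_(-2)⁻¹ w⁻¹ a_2⁻¹ t⁻³` (F1 with `j = M+2`);
`(a w a)⁻¹ t (a w a) = a⁻¹ w⁻¹ (t a_2) w a = a⁻¹ t⁻¹ (w⁻¹ a_2 w) a = a⁻¹ t⁻¹ a_(M-2) w⁻¹ a_2⁻¹ t⁻⁴ a
= a⁻¹ a_(M-1) w⁻¹ a_1⁻¹ a_3 t⁻³` (F2 with `j = 2`).
So `a_(-2)⁻¹ w⁻¹ a_2⁻¹ = a⁻¹ a_(M-1) w⁻¹ a_1⁻¹ a_3`, and with `a_(-2) a⁻¹ = a_(-1)`,
`a_1 = a_2 a_3`: `w⁻¹ = a_(-1) a_(M-1) w⁻¹ (a_3⁻¹ a_2⁻¹ a_3 a_2)`, so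
`w (a_(-1) a_(M-1)) w⁻¹ = a_2⁻¹ a_3⁻¹ a_2 a_3`. -/
def StKA : Prop :=
  ∀ (G : Type) [Group G] (M : ℕ) (a w t : G), Rel M a w t →
    w * (cj a t (-1) * cj a t (M - 1)) * w⁻¹ =
      (cj a t 2)⁻¹ * (cj a t 3)⁻¹ * cj a t 2 * cj a t 3

/-- MODULE KB (100 lines, uses KA).  PROOF.  `K = a_0⁻¹ a_1⁻¹ a_0 a_1`, `K_j = t^(-j) K t^j =
[a_j, a_(j+1)]`.  From `a_0 = a_1 a_2`: `K = a_2⁻¹ a_1⁻¹ a_2 a_1 = K_1⁻¹`; so `t⁻¹ K t = K⁻¹`,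
`K_2 = K`.  `P_j = a_j a_(M+j)`, `t⁻¹ P_j t = P_(j+1)`.  KA: `w P_(-1) w⁻¹ = K_2 = K`.  Conjugating
by `t` (`t w = w t⁻¹`): `w P_0 w⁻¹ = K⁻¹`, `w P_1 w⁻¹ = K`, ...: `P_(j+1) = P_j⁻¹`.  Let `P = P_0`;
`a_(M+j) = a_j⁻¹ P_j`; `a_M = a_(M+1) a_(M+2)` gives `a⁻¹ P = a_1⁻¹ P⁻¹ a_2⁻¹ P`, so
`a_2⁻¹ a_1⁻¹ = a⁻¹ = a_1⁻¹ P⁻¹ a_2⁻¹` and `P = a_2⁻¹ a_1 a_2 a_1⁻¹ = a_1 K_1 a_1⁻¹ = a_1 K⁻¹ a_1⁻¹`.
Conjugate by `t` and `t⁻¹` (`P ↦ P⁻¹`, `K ↦ K⁻¹`): `P = a_2 K⁻¹ a_2⁻¹ = a_0 K⁻¹ a_0⁻¹`.  With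
`a_0 = a_1 a_2`: `P = a_1 (a_2 K⁻¹ a_2⁻¹) a_1⁻¹ = a_1 P a_1⁻¹`, and `P = a_1 K⁻¹ a_1⁻¹`; so
`P = K⁻¹`.  Hence `a, a_1` commute with `K`, `a a_M = K⁻¹`, and `w K⁻¹ w⁻¹ = K⁻¹`. -/
def StKB : Prop :=
  ∀ (G : Type) [Group G] (M : ℕ) (a w t K : G), Rel M a w t →
    K = a⁻¹ * (cj a t 1)⁻¹ * a * cj a t 1 →
    a * K = K * a ∧ w * K = K * w ∧ t⁻¹ * K * t = K⁻¹ ∧ a * cj a t M = K⁻¹ ∧
      cj a t 1 * K = K * cj a t 1

/-- MODULE KC (50 lines, uses KB).  PROOF.  All `a_j` commute with `K` (conjugate `a K = K a` by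
`t^j`, `K ↦ K^(±1)`).  Claim: `a⁻¹ a_n⁻¹ a a_n = K^(B_n)` for all `n : ℕ`, where `B_0 = 0`,
`B_1 = 1`, `B_(n+2) = B_n - B_(n+1)`; `B_n = ± fib n`.  Induction: `a_(n+2) = a_(n+1)⁻¹ a_n`, and the
commutators are central for the `a_j`, so `[a, a_(n+1)⁻¹ a_n] = [a,a_(n+1)]⁻¹ [a,a_n]`.  Now
`a_M = a⁻¹K⁻¹` commutes with `a`, so `K^(B_M) = 1`, i.e. `K^(fib M) = 1`, `fib M > 0`. -/
def StKC : Prop :=
  ∀ (G : Type) [Group G] (M : ℕ) (a w t : G), Rel M a w t → 0 < M →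
    ∃ n : ℕ, 0 < n ∧ (a⁻¹ * (cj a t 1)⁻¹ * a * cj a t 1) ^ n = 1

/-- MODULE RI (80 lines).  PROOF.  `x` is a unit with inverse `x + 1`; `x³ = 2x - 1 = 1 + 2(x-1)`.
`2` is a unit: in `L/2L` we have `x³ = 1`, `x^M = -1 = 1`, `3 ∤ M` so `x = 1`, and
`x² + x = 1` gives `2 = 1`, so `1 = 0` in `L/2L`, so `2L = L`.
Finite: let `y = -1 - x` (`x y = -1`), `T_n = x^n + y^n` is the integer sequence `T_0 = 2`,
`T_1 = -1`, `T_(n+2) = T_n - T_(n+1)`; for even `n`, `T_n ≥ 2` (`(-1)^n T_n` is the Lucas sequence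
`2, 1, 3, 4, ...`).  `M` even: `y^M = x^(-M) = -1`, so `T_M = -2` in `L`: the positive integer
`c = T_M + 2` is `0` in `L`.  So `L = {m + n x : 0 ≤ m, n < c}` is finite. -/
def StRI : Prop :=
  ∀ (L : Type) [CommRing L] (M : ℕ) (x : Lˣ), (x : L) ^ 2 + (x : L) = 1 → (x : L) ^ M = -1 →
    4 ∣ M → ¬ 3 ∣ M → (∀ a : L, ∃ m n : ℤ, a = (m : L) + (n : L) * (x : L)) → Rg L M x

/-- MODULE EX (120 lines).  PROOF.  `V = Subgroup.closure {a, a_1}` is abelian; all `a_j` (`j : ℤ`) are in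
`V` (`a_(j+2) = a_(j+1)⁻¹ a_j`, `a_(j-1) = a_j a_(j+1)`), `v ↦ t⁻¹ v t` maps `V` to `V` (generators
`a ↦ a_1`, `a_1 ↦ a_2`): additive endomorphism `T` of `Additive V`, with `T² + T = 1` (`T²v + Tv = v`
on the generators `a_j`), `T^M = -1` (`a_(M+j) = a_j⁻¹`).  `L` = the subring `Algebra.adjoin ℤ {T}` (or
`Subring.closure {T}`, or `{m + nT}`) of the ring `AddMonoid.End (Additive V)`; it is commutative, every
element is `m + n T`; `x = T` is a unit (inverse `T + 1`).  `E(p) = p(a)` (as an element of `G`).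
(For comparison: `Good.exists_E` in `Pool/Agent/Helper46/DZ2/Pres.lean`.) -/
def StEX : Prop :=
  ∀ (G : Type) [Group G] (M : ℕ) (a t : G), a = cj a t 1 * cj a t 2 →
    a * cj a t M = 1 → a * cj a t 1 = cj a t 1 * a →
    ∃ (L : Type) (_ : CommRing L) (x : Lˣ) (E : L → G),
      (x : L) ^ 2 + (x : L) = 1 ∧ (x : L) ^ M = -1 ∧
      (∀ p : L, ∃ m n : ℤ, p = (m : L) + (n : L) * (x : L)) ∧
      (∀ p q, E (p + q) = E p * E q) ∧ E 1 = a ∧ ∀ p, t⁻¹ * E p * t = E ((x : L) * p)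

/-- MODULE PA (120 lines, uses IN RI EX KB).  The case `K = 1`.  PROOF.  By KB (`K = 1`)
`a a_M = 1`.  So `a w a = w a⁻¹ w⁻¹`, `(aw)² = w a⁻¹`, `(aw)³ = w²`, `w²` commutes with `w`, `aw`, so with
`a`, and with `t` (`w⁻²tw² = t`); so `w²` is central (or just: commutes with `a, w, t`, hence with all
`E(p)`).  EX: `L, x, E`; RI: `Rg L M x`.  `E` values are in the closure: `E(p)` commutes with `w²`
(`p = m + n x`: `E(p) = a^m a_1^n`).  `F(b) = w E(-b) w⁻¹`.  `t E(p) t⁻¹ = E(x⁻¹p)`,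
`t⁻¹ F(p) t = F(x⁻¹ p)`.
`om(1) = a (w a w⁻¹) a = (a w a) w⁻¹ a = w a⁻¹ w⁻² a = w⁻¹`.  Weyl 1: `w⁻¹ E(a) w = w E(a) w⁻¹ = F(-a)`
(`w²` commutes with `E(a)`), `w⁻¹ F(b) w = E(-b)`.
`om(x) = t⁻¹ om(1) t` (`E(x) = t⁻¹E(1)t`, `F(-1/x) = t⁻¹F(-1)t`) `= t⁻¹ w⁻¹ t`.  Weyl `x`: conjugate
Weyl 1 by `t⁻¹` (`E(a) = t⁻¹ E(a/x) t`).  By IN the group `Γ = s.gp` is finite.  It contains
`a = E(1)`, `w⁻¹ = om(1)`, `om(x) om(1)⁻¹ = t⁻¹ w⁻¹ t w = t⁻²`; it is normalized by `t` (and by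
`a, w ∈ Γ`), so it is normal and `G/Γ` is generated by `t` with `t² = 1`: finite.  So `G` is finite. -/
def StPA : Prop :=
  ∀ (G : Type) [Group G] (M : ℕ) (a w t : G), 0 < M → 4 ∣ M → ¬ 3 ∣ M → Rel M a w t →
    a * cj a t 1 = cj a t 1 * a → Subgroup.closure {a, w, t} = ⊤ → Finite G

/-- MODULE PB (60 lines, uses PA KB KC).  PROOF.  `K` as in KB, `C = Subgroup.zpowers K` is
finite (KC) and normal (`a, w` commute with `K`, `t⁻¹Kt = K⁻¹`, and they generate `G`).  `G/C`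
satisfies the hypotheses of PA (images of `a, w, t`; `K = 1`).  So `G/C` and `C` are finite. -/
def StPB : Prop :=
  ∀ (G : Type) [Group G] (M : ℕ) (a w t : G), 0 < M → 4 ∣ M → ¬ 3 ∣ M → Rel M a w t →
    Subgroup.closure {a, w, t} = ⊤ → Finite G

/-- MODULE TF (70 lines).  PROOF.  `K = GaloisField p 2` has `p²` elements, every quadratic equation
over `F_p` has a root in it; take a root `x` of `x² + x = 1` (e.g. `5 = c²` in `K`: `5` is a square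
in `K` as every element of `F_p` is (`5^((p²-1)/2) = (5^(p-1))^((p+1)/2) = 1`), `x = (-1+c)/2`).
`x ∉ F_p`: `(2x+1)² = 5`, and `5` is not a square mod `p` (quadratic reciprocity: `p ≡ 3, 2 mod 5`;
`p ≠ 5`, `p` odd).  So `x^p ≠ x`, `x^p` is the other root `-1-x` of the equation (Frobenius), and
`x^(p+1) = x(-1-x) = -1`. -/
def StTF : Prop :=
  ∀ p : ℕ, ∀ _ : Fact p.Prime, (p % 20 = 3 ∨ p % 20 = 7) →
    ∃ x : GaloisField p 2, x ^ 2 + x = 1 ∧ x ^ p ≠ x ∧ x ^ (p + 1) = -1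

/-- MODULE TG (150 lines, uses TF).  PROOF.  `K = GaloisField p 2`, `x` from TF, `Ω` = algebraic closure
of `K`, `μ ∈ Ω` with `μ² = x`.  In `SL(2, Ω)`: `E(c) = [1 c; 0 1]`, `F(c) = [1 0; c 1]`,
`a = E(1)`, `w = [0 -1; 1 0]`, `t = diag(μ⁻¹, μ)`.  `t⁻¹ E(c) t = E(xc)`, so `a_i = E(x^i)`;
`x + x² = 1`: `a = a_1 a_2`; `a_M = E(x^M) = E(-1)`, `M = p+1`; `w E(-1) w⁻¹ = F(1)` and
`a w a = F(1)`; `w⁻¹ t w = t⁻¹`.  `T` = the subgroup of `SL(2,Ω)` generated by `a, w, t` (or `T = SL(2,Ω)`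
itself).  `N` = image of `SL(2,K) → SL(2,Ω)`.  `a, w ∈ N`, and `t` normalizes `N` (`t⁻¹ g t` multiplies
the entries by `1, x, x⁻¹, 1`).  Let `f : G → SL(2,Ω)` be a homomorphism, `G` generated by
`g_a, g_w, g_t ↦ a, w, t`: then `f(G)` normalizes `N`, so `Lc = f⁻¹(N)` is normal in `G`; and `f(G)`
contains `a_i = E(x^i)`, so all `E(c)`, `c ∈ K` (the additive span of the `x^i` is the field
`F_p(x) = K`, as `x ∉ F_p` and `[K:F_p] = 2`), `w E(c) w⁻¹`, so all of `N` (`SL(2,K)` is generated by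
`E(c)` and `w`).  So `Lc → N ≅ SL(2,K) → PSL(2,K)` is surjective.  (Compare
`Pool/Agent/Helper72/DZ2/M_Target.lean`.) -/
def StTG : Prop :=
  ∀ p : ℕ, ∀ _ : Fact p.Prime, (p % 20 = 3 ∨ p % 20 = 7) →
    ∃ (T : Type) (_ : Group T) (a w t : T), Rel (p + 1) a w t ∧
      ∀ (G : Type) [Group G] (f : G →* T) (ga gw gt : G), f ga = a → f gw = w → f gt = t →
        Subgroup.closure {ga, gw, gt} = ⊤ →
        ∃ L : Subgroup G, L.Normal ∧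
          ∃ f' : L →* Matrix.ProjectiveSpecialLinearGroup (Fin 2) (GaloisField p 2),
            Function.Surjective f'

end Pool.Agent.Helper43.GD
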